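import Pool.Agent.Q258.MT.Ref6

set_option autoImplicit false

/-!
The monotone triangle polynomial at `1, ..., k - 3, k - 1, k, k - 1, k, k + 1, ..., n`.
-/

namespace Pool.Agent.Results.MP_039c6c_co.RationalMultiples

open Pool.Agent.Q258.MT
open scoped Nat

/-- The number of alternating sign matrices of size `n`. -/
noncomputable def asmNumber (n : ℕ) : ℕ :=
  Nat.card {a : Fin n → Fin n → ℤ // IsASM a}

/-- The sequence `1, 2, ..., k - 3, k - 1, k, k - 1, k, k + 1, ..., n` of length `n + 1` (positions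
counted from `0`; `4 ≤ k ≤ n`). -/
def row (n k : ℕ) : Fin (n + 1) → ℤ :=
  fun q => if (q : ℕ) + 3 < k then (q : ℕ) + 1
    else if (q : ℕ) + 3 = k ∨ (q : ℕ) + 1 = k then (k : ℤ) - 1
    else if (q : ℕ) + 2 = k then k
    else (q : ℕ)

theorem ofFn_row (i m : ℕ) : List.ofFn (row (i + m + 3) (i + 3)) =
    up 1 i ++ (1 + (i : ℤ) + 1) :: (1 + (i : ℤ) + 1 + 1) :: (1 + (i : ℤ) + 1) ::
      (1 + (i : ℤ) + 1 + 1) :: up (1 + i + 3) m := by
  apply ofFn_eq_of_getElem
  · intro q hq
    rcases Nat.lt_or_ge q i with h | h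
    · rw [List.getElem_append_left (by rw [up_length]; exact h), up_getElem]
      simp only [row]
      rw [if_pos (by omega)]
      ring
    · rw [List.getElem_append_right (by rw [up_length]; exact h)]
      obtain ⟨r, rfl⟩ : ∃ r, q = i + r := ⟨q - i, by omega⟩
      simp only [up_length, Nat.add_sub_cancel_left, row]
      match r with
      | 0 =>
        simp only [List.getElem_cons_zero]
        rw [if_neg (by omega), if_pos (Or.inl (by trivial))]
        push_cast; ring
      | 1 =>
        simp only [List.getElem_cons_succ, List.getElem_cons_zero]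
        rw [if_neg (by omega), if_neg (by rintro (h' | h') <;> omega), if_pos (by trivial)]
        push_cast; ring
      | 2 =>
        simp only [List.getElem_cons_succ, List.getElem_cons_zero]
        rw [if_neg (by omega), if_pos (Or.inr (by trivial))]
        push_cast; ring
      | 3 =>
        simp only [List.getElem_cons_succ, List.getElem_cons_zero]
        rw [if_neg (by omega), if_neg (by omega), if_neg (by omega)]
        push_cast; ring
      | r + 4 =>
        simp only [List.getElem_cons_succ]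
        rw [up_getElem, if_neg (by omega), if_neg (by omega), if_neg (by omega)]
        push_cast; ring
  · simp only [List.length_append, List.length_cons, up_length]
    ring

theorem asmNumber_eq (n : ℕ) : (asmNumber (n + 1) : ℚ) = al (n + 1) (up 1 (n + 1)) := asm_total n

theorem value (i m : ℕ) (p : MvPolynomial (Fin (i + m + 3 + 1)) ℚ) (hp : IsMTPoly (i + m + 3) p) :
    MvPolynomial.eval (fun q => (row (i + m + 3) (i + 3) q : ℚ)) p =
      ∑ j ∈ Finset.range (i + 1), ((i : ℚ) + 1 - j) * Bn (i + m + 2) j := by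
  rw [hp.eval_eq, ofFn_row]
  exact Tk_value i m

/-- **The values `T_k(n)`.** For every `n` there is exactly one monotone triangle polynomial in `n + 1`
variables. Let `T_k(n)` be its value at `1, 2, ..., k - 3, k - 1, k, k - 1, k, k + 1, ..., n`, for
`4 ≤ k ≤ n`.
(1) An explicit formula: `T_k(n)` is the number of alternating sign matrices of size `n - 1` times the sum
over `0 ≤ j ≤ k - 3` of `(k - 2 - j) C(n - 1, j) (n - 1 + j)! (2 n - 2 - j)! / ((n - 1)! (2 n - 2)!)`.
(2) For every `k ≥ 4` there are polynomials `P` and `Q` with rational coefficients whose degrees differ by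
`k - 3` such that, for all `n ≥ k`, `Q(n) ≠ 0` and `T_k(n)` is `P(n) / Q(n)` times the number of
alternating sign matrices of size `n - 1`. -/
theorem result :
    (∀ n : ℕ, ∃! p : MvPolynomial (Fin (n + 1)) ℚ, IsMTPoly n p) ∧
    (∀ k n : ℕ, 4 ≤ k → k ≤ n → ∀ p : MvPolynomial (Fin (n + 1)) ℚ, IsMTPoly n p →
      MvPolynomial.eval (fun q => (row n k q : ℚ)) p =
        asmNumber (n - 1) * ∑ j ∈ Finset.range (k - 2), ((k : ℚ) - 2 - j) *
          (((n - 1).choose j : ℚ) * ((n - 1 + j)! : ℚ) * ((2 * (n - 1) - j)! : ℚ) /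
            (((n - 1)! : ℚ) * ((2 * (n - 1))! : ℚ)))) ∧
    ∀ k : ℕ, 4 ≤ k → ∃ P Q : Polynomial ℚ, P ≠ 0 ∧ Q ≠ 0 ∧ P.natDegree = Q.natDegree + (k - 3) ∧
      ∀ n : ℕ, k ≤ n → Q.eval (n : ℚ) ≠ 0 ∧ ∀ p : MvPolynomial (Fin (n + 1)) ℚ, IsMTPoly n p →
        MvPolynomial.eval (fun q => (row n k q : ℚ)) p = P.eval (n : ℚ) / Q.eval (n : ℚ) * asmNumber (n - 1) := by
  refine ⟨existsUnique_mtPoly, ?_, ?_⟩
  · intro k n hk hkn p hp
    obtain ⟨i, rfl⟩ : ∃ i, k = i + 3 := ⟨k - 3, by omega⟩
    obtain ⟨m, rfl⟩ : ∃ m, n = i + m + 3 := ⟨n - (i + 3), by omega⟩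
    have e1 : i + m + 3 - 1 = i + m + 2 := rfl
    have e2 : i + 3 - 2 = i + 1 := rfl
    rw [value i m p hp, e1, e2, Finset.mul_sum]
    apply Finset.sum_congr rfl
    intro j hj
    rw [Finset.mem_range] at hj
    rw [Bn_closed (i + m + 2) j (by omega), Bn_zero, show i + m + 2 = (i + m + 1) + 1 from rfl, asmNumber_eq]
    push_cast
    ring
  · intro k hk
    obtain ⟨i, rfl⟩ : ∃ i, k = i + 3 := ⟨k - 3, by omega⟩
    have hP := Pool.Agent.Q258.MTR.Pi_natDegree i (by omega)
    have hQ := Pool.Agent.Q258.MTR.Dp_natDegree 0 i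
    refine ⟨Pool.Agent.Q258.MTR.Pi i, Pool.Agent.Q258.MTR.Dp 0 i, ?_, ?_, ?_, ?_⟩
    · intro h
      rw [h, Polynomial.natDegree_zero] at hP
      omega
    · intro h
      rw [h, Polynomial.natDegree_zero] at hQ
      omega
    · rw [hP, hQ]
      omega
    · intro n hn
      obtain ⟨m, rfl⟩ : ∃ m, n = i + m + 3 := ⟨n - (i + 3), by omega⟩
      have e1 : i + m + 3 - 1 = (i + m + 1) + 1 := rfl
      refine ⟨Pool.Agent.Q258.MTR.Dp_ne (i + m + 2) i (by omega), fun p hp => ?_⟩
      rw [value i m p hp, e1, asmNumber_eq]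
      exact Pool.Agent.Q258.MTR.Pi_eval (i + m + 2) i (by omega)

end Pool.Agent.Results.MP_039c6c_co.RationalMultiples
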